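import Mathlib
import Pool.Agent.MP_671186_gt.Shells

set_option autoImplicit false

namespace Pool.Agent.Results.MP_671186_gt.TwoClosures

/-- In every dimension `d` and for every `D > 0` there is a countable partition of `ℝ^d`
(sup metric) whose members have strict pairwise bound `D`, such that every cube `α + [0,D]^d`
meets countably many members and every point lies in the closures of at most two members. -/
theorem result (d : ℕ) (D : ℝ) (hD : 0 < D) :
    ∃ P : Set (Set (Fin d → ℝ)),
      Setoid.IsPartition P ∧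
      (∀ X ∈ P, ∀ x ∈ X, ∀ y ∈ X, dist x y < D) ∧
      P.Countable ∧
      (∀ α : Fin d → ℝ, {X ∈ P | ∃ x ∈ X, ∀ i, x i - α i ∈ Set.Icc 0 D}.Countable) ∧
      ∀ p : Fin d → ℝ, {X ∈ P | p ∈ closure X}.encard ≤ 2 := by
  obtain ⟨P, h1, h2, h3, h4⟩ := Pool.Agent.MP_671186_gt.shells d D hD
  exact ⟨P, h1, h3, h2, fun _ => h2.mono fun _ h => h.1, h4⟩

end Pool.Agent.Results.MP_671186_gt.TwoClosures
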